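import Pool.Agent.PRAR.G.A

/-! # Lemma Reg -/

set_option autoImplicit false
set_option linter.unusedSectionVars false

open scoped Classical

noncomputable section

namespace PRAR

/-- Sum of the numbers of forms over all types with `l` elements. -/
def gz_sum {ι : Type} [Fintype ι] {F : Type} [Field F] {Y : Type} [AddCommGroup Y] [Module F Y]
    (P : Fam ι F Y) (l : ℕ) : ℝ :=
  ∑ I : Finset ι, if I.card = l then (P.cnt I : ℝ) else 0

theorem gz_sum_le_card {ι : Type} [Fintype ι] {F : Type} [Field F] {Y : Type} [AddCommGroup Y]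
    [Module F Y] (P : Fam ι F Y) (l : ℕ) : gz_sum P l ≤ P.card := by
  unfold gz_sum
  have h1 : (P.card : ℝ) = ∑ I : Finset ι, (P.cnt I : ℝ) := by
    unfold Fam.card Fam.cnt
    rw [Fintype.card_congr (Equiv.sigmaFiberEquiv P.ty).symm, Fintype.card_sigma]
    push_cast
    rfl
  rw [h1]
  apply Finset.sum_le_sum
  intro I _
  split_ifs
  · exact le_rfl
  · positivity

theorem gz_sum_mono {ι : Type} [Fintype ι] {F : Type} [Field F] {Y : Type} [AddCommGroup Y]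
    [Module F Y] (P P' : Fam ι F Y) (l : ℕ) (h : ∀ I : Finset ι, I.card = l → P.cnt I ≤ P'.cnt I) :
    gz_sum P l ≤ gz_sum P' l := by
  unfold gz_sum
  apply Finset.sum_le_sum
  intro I _
  split_ifs with h1
  · exact_mod_cast h I h1
  · exact le_rfl

theorem gz_sum_drop {ι : Type} [Fintype ι] {F : Type} [Field F] {Y : Type} [AddCommGroup Y]
    [Module F Y] (P P' : Fam ι F Y) (l : ℕ) (I0 : Finset ι) (hI0 : I0.card = l) (d : ℝ)
    (h : ∀ I : Finset ι, I ≠ I0 → I.card = l → P.cnt I = P'.cnt I)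
    (h0 : (P.cnt I0 : ℝ) ≤ P'.cnt I0 - d) :
    gz_sum P l ≤ gz_sum P' l - d := by
  unfold gz_sum
  rw [← Finset.add_sum_erase _ _ (Finset.mem_univ I0), ← Finset.add_sum_erase _ _
    (Finset.mem_univ I0)]
  rw [if_pos hI0, if_pos hI0]
  have h1 : ∑ x ∈ Finset.univ.erase I0, (if x.card = l then (P.cnt x : ℝ) else 0) =
      ∑ x ∈ Finset.univ.erase I0, (if x.card = l then (P'.cnt x : ℝ) else 0) := by
    apply Finset.sum_congr rfl
    intro x hx
    split_ifs with h2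
    · rw [h x (Finset.ne_of_mem_erase hx) h2]
    · rfl
  rw [h1]
  linarith

theorem gz_zero_of_sum {ι : Type} [Fintype ι] {F : Type} [Field F] {Y : Type} [AddCommGroup Y]
    [Module F Y] (P : Fam ι F Y) (l : ℕ) (h : gz_sum P l ≤ 0) (I : Finset ι) (hI : I.card = l) :
    P.cnt I = 0 := by
  unfold gz_sum at h
  have h1 : (if I.card = l then (P.cnt I : ℝ) else 0) ≤
      ∑ I : Finset ι, if I.card = l then (P.cnt I : ℝ) else 0 :=
    Finset.single_le_sum (f := fun I : Finset ι => if I.card = l then (P.cnt I : ℝ) else 0)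
      (fun J _ => by split_ifs <;> positivity) (Finset.mem_univ I)
  rw [if_pos hI] at h1
  have h2 : (P.cnt I : ℝ) ≤ 0 := h1.trans h
  have h3 : P.cnt I ≤ 0 := by exact_mod_cast h2
  omega

theorem gz_cnt_le {ι : Type} [Fintype ι] {F : Type} [Field F] {Y : Type} [AddCommGroup Y]
    [Module F Y] (P : Fam ι F Y) (I : Finset ι) : P.cnt I ≤ P.card := by
  unfold Fam.cnt Fam.card
  exact Fintype.card_subtype_le _

/-- The induction claim. -/
def gz_Claim (ι : Type) [Fintype ι] (A : Finset ι) (C l : ℕ) : Prop :=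
  ∀ (ρ E0 : ℕ) (G : ℕ → ℕ), 1 ≤ E0 → (∀ n, 1 ≤ G n) → ∃ K : ℕ,
    ∀ (F : Type) [Field F] [Fintype F], (∀ I ⊆ A, DD F I C) →
    ∀ (Y : Type) [AddCommGroup Y] [Module F Y] [Fintype Y] (ss : ℕ), 1 ≤ ss →
    ∀ P : Fam ι F Y, P.On A → P.card ≤ ρ * ss →
    ∃ (P' : Fam ι F Y) (K' : ℕ), P'.On A ∧ K' ≤ K ∧ P'.zer ⊆ P.zer ∧ P'.card ≤ K' * ss ∧
      (∀ I, I.card ≤ l → Reg F I (P'.vec I) (P'.cnt I) ((ss : ℝ) / E0) (G K')) ∧
      (∀ I, l < I.card → P'.cnt I ≤ P.cnt I)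

/-- The inner induction claim. -/
def gz_Inner (ι : Type) [Fintype ι] (A : Finset ι) (C l nn : ℕ) (E0 : ℕ) (G : ℕ → ℕ) : Prop :=
  ∀ (ρ : ℕ), ∃ K : ℕ,
    ∀ (F : Type) [Field F] [Fintype F], (∀ I ⊆ A, DD F I C) →
    ∀ (Y : Type) [AddCommGroup Y] [Module F Y] [Fintype Y] (ss : ℕ), 1 ≤ ss →
    ∀ P : Fam ι F Y, P.On A → P.card ≤ ρ * ss →
    gz_sum P (l + 1) ≤ nn * (((ss : ℝ) / E0) / 2) →
    ∃ (P' : Fam ι F Y) (K' : ℕ), P'.On A ∧ K' ≤ K ∧ P'.zer ⊆ P.zer ∧ P'.card ≤ K' * ss ∧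
      (∀ I, I.card ≤ l + 1 → Reg F I (P'.vec I) (P'.cnt I) ((ss : ℝ) / E0) (G K')) ∧
      (∀ I, l + 1 < I.card → P'.cnt I ≤ P.cnt I)

theorem gz_claim_zero (ι : Type) [Fintype ι] (A : Finset ι) (C : ℕ) : gz_Claim ι A C 0 := by
  intro ρ E0 G hE0 hG
  refine ⟨ρ, ?_⟩
  intro F _ _ _ Y _ _ _ ss hss P hPA hPc
  refine ⟨P, ρ, hPA, le_rfl, le_rfl, hPc, ?_, fun I _ => le_rfl⟩
  intro I hI
  have hI0 : I = ∅ := Finset.card_eq_zero.1 (Nat.le_zero.1 hI)
  apply reg_of_cnt_zero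
  · unfold Fam.cnt
    rw [Fintype.card_eq_zero_iff]
    refine ⟨fun k => ?_⟩
    have h1 := P.ne k.1
    rw [k.2, hI0] at h1
    exact Finset.not_nonempty_empty h1
  · positivity

theorem gz_inner_zero (ι : Type) [Fintype ι] (A : Finset ι) (C l : ℕ) (hC : gz_Claim ι A C l)
    (E0 : ℕ) (G : ℕ → ℕ) (hE0 : 1 ≤ E0) (hG : ∀ n, 1 ≤ G n) : gz_Inner ι A C l 0 E0 G := by
  intro ρ
  obtain ⟨K, hK⟩ := hC ρ E0 G hE0 hG
  refine ⟨K, ?_⟩
  intro F _ _ hDD Y _ _ _ ss hss P hPA hPc hsum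
  obtain ⟨P', K', h1, h2, h3, h4, h5, h6⟩ := hK F hDD Y ss hss P hPA hPc
  refine ⟨P', K', h1, h2, h3, h4, ?_, fun I hI => h6 I (by omega)⟩
  intro I hI
  rcases Nat.lt_or_ge l I.card with hl | hl
  · have hI' : I.card = l + 1 := by omega
    have hz : P.cnt I = 0 := gz_zero_of_sum P (l + 1) (by simpa using hsum) I hI'
    apply reg_of_cnt_zero
    · have := h6 I hl
      omega
    · positivity
  · exact h5 I hl

theorem gz_inner_step (ι : Type) [Fintype ι] (A : Finset ι) (C l : ℕ) (hC : gz_Claim ι A C l)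
    (hD : ∀ I : Finset ι, I.Nonempty → StmtDec ι I C)
    (E0 : ℕ) (G : ℕ → ℕ) (hE0 : 1 ≤ E0) (hG : ∀ n, 1 ≤ G n) (nn : ℕ)
    (hnn : gz_Inner ι A C l nn E0 G) : gz_Inner ι A C l (nn + 1) E0 G := by
  intro ρ
  obtain ⟨K1, hK1⟩ := hC ρ E0 G hE0 hG
  have hDec : ∀ (I : Finset ι) (m : ℕ), ∃ K : ℕ, I.Nonempty →
      ∀ (F : Type) [Field F] [Fintype F], DD F I C →
      ∀ (Y : Type) [AddCommGroup Y] [Module F Y] [Fintype Y] (σ : Type) [Fintype σ]
      (f : (ι → Y) → (σ → F)), MLin F I f → ∀ ss : ℕ, 1 ≤ ss → Fintype.card σ ≤ K1 * ss →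
      ¬ Reg F I f (Fintype.card σ) ((ss : ℝ) / E0) (G m) →
      ∃ E : Submodule F (σ → F),
        (Module.finrank F E : ℝ) ≤ (Fintype.card σ : ℝ) - ((ss : ℝ) / E0) / 2 ∧
        ∃ P : Fam ι F Y, (∀ k, P.ty k ⊂ I) ∧ P.card ≤ K * ss ∧ ∀ y ∈ P.zer, f y ∈ E := by
    intro I m
    by_cases hI : I.Nonempty
    · obtain ⟨K, hK⟩ := hD I hI (G m) K1 E0 (hG m) hE0
      exact ⟨K, fun _ => hK⟩
    · exact ⟨0, fun h => absurd h hI⟩
  choose KD hKD using hDec
  set KT : ℕ := ∑ I : Finset ι, ∑ m ∈ Finset.range (K1 + 1), KD I m with hKT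
  have hKDle : ∀ (I : Finset ι) (m : ℕ), m ≤ K1 → KD I m ≤ KT := by
    intro I m hm
    calc KD I m ≤ ∑ m ∈ Finset.range (K1 + 1), KD I m :=
          Finset.single_le_sum (f := fun m => KD I m) (fun _ _ => Nat.zero_le _)
            (Finset.mem_range.2 (by omega))
      _ ≤ KT := Finset.single_le_sum
          (f := fun I : Finset ι => ∑ m ∈ Finset.range (K1 + 1), KD I m)
          (fun _ _ => Nat.zero_le _) (Finset.mem_univ I)
  obtain ⟨K2, hK2⟩ := hnn (K1 + KT)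
  refine ⟨max K1 K2, ?_⟩
  intro F _ _ hDD Y _ _ _ ss hss P hPA hPc hsum
  have hτ0 : (0 : ℝ) ≤ (ss : ℝ) / E0 := by positivity
  obtain ⟨P1, K1', h1, h2, h3, h4, h5, h6⟩ := hK1 F hDD Y ss hss P hPA hPc
  by_cases hreg : ∀ I : Finset ι, I.card = l + 1 →
      Reg F I (P1.vec I) (P1.cnt I) ((ss : ℝ) / E0) (G K1')
  · refine ⟨P1, K1', h1, h2.trans (le_max_left _ _), h3, h4, ?_, fun I hI => h6 I (by omega)⟩
    intro I hI
    rcases Nat.lt_or_ge l I.card with hl | hl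
    · exact hreg I (by omega)
    · exact h5 I hl
  · push Not at hreg
    obtain ⟨I, hIc, hIr⟩ := hreg
    have hIne : I.Nonempty := by
      rw [← Finset.card_pos]; omega
    have hcnt : P1.cnt I ≠ 0 := by
      intro h0
      exact hIr (reg_of_cnt_zero P1 I h0 _ hτ0 _)
    have hIA : I ⊆ A := by
      unfold Fam.cnt at hcnt
      have hpos : 0 < Fintype.card {k : P1.κ // P1.ty k = I} := Nat.pos_of_ne_zero hcnt
      obtain ⟨k⟩ := Fintype.card_pos_iff.1 hpos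
      have := h1 k.1
      rw [k.2] at this
      exact this
    have hσ : P1.cnt I ≤ K1 * ss := by
      calc P1.cnt I ≤ P1.card := gz_cnt_le P1 I
        _ ≤ K1' * ss := h4
        _ ≤ K1 * ss := Nat.mul_le_mul_right _ h2
    obtain ⟨E, hE, P0, hP0, hP0c, hP0z⟩ := hKD I K1' hIne F (hDD I hIA) Y
      {k : P1.κ // P1.ty k = I} (P1.vec I) (vec_mlin P1 I) ss hss hσ hIr
    obtain ⟨P2, h7, h8, h9, h10, h11⟩ := surgery P1 I A hIA h1 E P0 hP0 hP0z hIne
    have hcnt2 : (P2.cnt I : ℝ) ≤ P1.cnt I - ((ss : ℝ) / E0) / 2 := by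
      have : (P2.cnt I : ℝ) ≤ Module.finrank F E := by exact_mod_cast h10
      exact this.trans hE
    have hsum2 : gz_sum P2 (l + 1) ≤ nn * (((ss : ℝ) / E0) / 2) := by
      have e1 := gz_sum_drop P2 P1 (l + 1) I hIc (((ss : ℝ) / E0) / 2)
        (fun J hJ hJc => h11 J hJ (by omega)) hcnt2
      have e2 := gz_sum_mono P1 P (l + 1) (fun J hJ => h6 J (by omega))
      have e3 : ((nn + 1 : ℕ) : ℝ) * (((ss : ℝ) / E0) / 2) =
          nn * (((ss : ℝ) / E0) / 2) + ((ss : ℝ) / E0) / 2 := by push_cast; ring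
      rw [e3] at hsum
      linarith
    have hc2 : P2.card ≤ (K1 + KT) * ss := by
      have e1 : K1' * ss ≤ K1 * ss := Nat.mul_le_mul_right _ h2
      have e2 : KD I K1' * ss ≤ KT * ss := Nat.mul_le_mul_right _ (hKDle I K1' h2)
      rw [Nat.add_mul]
      omega
    obtain ⟨P', K', g1, g2, g3, g4, g5, g6⟩ := hK2 F hDD Y ss hss P2 h7 hc2 hsum2
    refine ⟨P', K', g1, g2.trans (le_max_right _ _), (g3.trans h8).trans h3, g4, g5, ?_⟩
    intro J hJ
    have e1 := g6 J hJ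
    have e2 := h11 J (by rintro rfl; omega) (by omega)
    have e3 := h6 J (by omega)
    omega

theorem gz_claim_succ (ι : Type) [Fintype ι] (A : Finset ι) (C l : ℕ) (hC : gz_Claim ι A C l)
    (hD : ∀ I : Finset ι, I.Nonempty → StmtDec ι I C) : gz_Claim ι A C (l + 1) := by
  intro ρ E0 G hE0 hG
  have hin : ∀ nn, gz_Inner ι A C l nn E0 G := by
    intro nn
    induction nn with
    | zero => exact gz_inner_zero ι A C l hC E0 G hE0 hG
    | succ nn ih => exact gz_inner_step ι A C l hC hD E0 G hE0 hG nn ih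
  obtain ⟨K, hK⟩ := hin (2 * ρ * E0) ρ
  refine ⟨K, ?_⟩
  intro F _ _ hDD Y _ _ _ ss hss P hPA hPc
  refine hK F hDD Y ss hss P hPA hPc ?_
  have hE : (E0 : ℝ) ≠ 0 := by
    have : E0 ≠ 0 := by omega
    exact_mod_cast this
  have e1 : ((2 * ρ * E0 : ℕ) : ℝ) * (((ss : ℝ) / E0) / 2) = ρ * ss := by
    push_cast
    field_simp
  rw [e1]
  refine (gz_sum_le_card P (l + 1)).trans ?_
  exact_mod_cast hPc

theorem regOfDec (ι : Type) [Fintype ι] (A : Finset ι) (C : ℕ)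
    (hD : ∀ I : Finset ι, I.Nonempty → StmtDec ι I C) : StmtReg ι A C := by
  have hcl : ∀ l, gz_Claim ι A C l := by
    intro l
    induction l with
    | zero => exact gz_claim_zero ι A C
    | succ l ih => exact gz_claim_succ ι A C l ih hD
  intro ρ E0 G hE0 hG
  obtain ⟨K, hK⟩ := hcl (Fintype.card ι) ρ E0 G hE0 hG
  refine ⟨K, ?_⟩
  intro F _ _ hDD Y _ _ _ ss hss P hPA hPc
  obtain ⟨P', K', h1, h2, h3, h4, h5, -⟩ := hK F hDD Y ss hss P hPA hPc
  exact ⟨P', K', h1, h2, h3, h4, fun I => h5 I (Finset.card_le_univ I)⟩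

end PRAR
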