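import Pool.Agent.PRAR.Ba

/-! # Section 4: surgery on a family -/

set_option autoImplicit false
set_option linter.unusedSectionVars false

open scoped Classical

noncomputable section

namespace PRAR

variable {ι : Type} [Fintype ι] {F : Type} [Field F] [Fintype F]
variable {Y : Type} [AddCommGroup Y] [Module F Y] [Fintype Y]

theorem ga_vec_mlin (P : Fam ι F Y) (I : Finset ι) : MLin F I (P.vec I) := by
  refine ⟨?_, ?_, ?_⟩
  · intro i hi y u v
    funext k
    have hk : i ∈ P.ty k.1 := by rw [k.2]; exact hi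
    exact (P.lin k.1).add i hk y u v
  · intro i hi y c u
    funext k
    have hk : i ∈ P.ty k.1 := by rw [k.2]; exact hi
    exact (P.lin k.1).smul i hk y c u
  · intro i hi y u
    funext k
    have hk : i ∉ P.ty k.1 := by rw [k.2]; exact hi
    exact (P.lin k.1).off i hk y u

/-- the new family -/
def ga_fam (P : Fam ι F Y) (I : Finset ι) (hIne : I.Nonempty) (n : ℕ)
    (q : Fin n → ({k : P.κ // P.ty k = I} → F) →ₗ[F] F) (P0 : Fam ι F Y) : Fam ι F Y where
  κ := {k : P.κ // P.ty k ≠ I} ⊕ Fin n ⊕ P0.κ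
  fin := inferInstance
  ty := Sum.elim (fun k => P.ty k.1) (Sum.elim (fun _ => I) P0.ty)
  p := Sum.elim (fun k => P.p k.1) (Sum.elim (fun c y => q c (P.vec I y)) P0.p)
  lin := by
    rintro (k | c | k)
    · exact P.lin k.1
    · exact (ga_vec_mlin P I).comp (q c)
    · exact P0.lin k
  ne := by
    rintro (k | c | k)
    · exact P.ne k.1
    · exact hIne
    · exact P0.ne k

theorem surgery (P : Fam ι F Y) (I A : Finset ι) (hIA : I ⊆ A) (hP : P.On A)
    (E : Submodule F ({k : P.κ // P.ty k = I} → F)) (P0 : Fam ι F Y) (h0 : ∀ k, P0.ty k ⊂ I)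
    (hE : ∀ y ∈ P0.zer, P.vec I y ∈ E) (hIne : I.Nonempty) :
    ∃ P2 : Fam ι F Y, P2.On A ∧ P2.zer ⊆ P.zer ∧ P2.card ≤ P.card + P0.card ∧
      P2.cnt I ≤ Module.finrank F E ∧
      ∀ I', I' ≠ I → I.card ≤ I'.card → P2.cnt I' = P.cnt I' := by
  obtain ⟨E', hE'⟩ := Submodule.exists_isCompl E
  set n := Module.finrank F E with hn
  let b : Module.Basis (Fin n) F E := Module.finBasis F E
  let q : Fin n → ({k : P.κ // P.ty k = I} → F) →ₗ[F] F :=
    fun c => (b.coord c).comp (E.projectionOnto E' hE')
  have hq : ∀ v ∈ E, (∀ c, q c v = 0) → v = 0 := by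
    intro v hv h
    have h1 : (⟨v, hv⟩ : E) = 0 := by
      rw [← b.forall_coord_eq_zero_iff]
      intro c
      have h2 := h c
      have h3 : E.projectionOnto E' hE' v = ⟨v, hv⟩ :=
        Submodule.projectionOnto_apply_left hE' ⟨v, hv⟩
      rw [show q c v = b.coord c (E.projectionOnto E' hE' v) from rfl, h3] at h2
      exact h2
    exact congrArg Subtype.val h1
  refine ⟨ga_fam P I hIne n q P0, ?_, ?_, ?_, ?_, ?_⟩
  · rintro (k | c | k)
    · exact hP k.1
    · exact hIA
    · exact (h0 k).1.trans hIA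
  · intro y hy k
    by_cases hk : P.ty k = I
    · have hy0 : y ∈ P0.zer := fun k => hy (Sum.inr (Sum.inr k))
      have h1 : P.vec I y = 0 := hq _ (hE y hy0) (fun c => hy (Sum.inr (Sum.inl c)))
      exact congrFun h1 ⟨k, hk⟩
    · exact hy (Sum.inl ⟨k, hk⟩)
  · have h1 : (ga_fam P I hIne n q P0).card =
        Fintype.card {k : P.κ // P.ty k ≠ I} + (n + P0.card) := by
      unfold Fam.card ga_fam
      rw [Fintype.card_sum, Fintype.card_sum, Fintype.card_fin]
    have h2 : P.card = Fintype.card {k : P.κ // P.ty k = I} +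
        Fintype.card {k : P.κ // P.ty k ≠ I} := by
      unfold Fam.card
      rw [← Fintype.card_sum]
      exact (Fintype.card_congr (Equiv.sumCompl (fun k => P.ty k = I))).symm
    have h3 : n ≤ Fintype.card {k : P.κ // P.ty k = I} := by
      have := Submodule.finrank_le E
      rwa [Module.finrank_fintype_fun_eq_card] at this
    omega
  · have h1 : Function.Surjective
        (fun c : Fin n => (⟨Sum.inr (Sum.inl c), rfl⟩ :
          {k : (ga_fam P I hIne n q P0).κ // (ga_fam P I hIne n q P0).ty k = I})) := by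
      rintro ⟨k | c | k, hk⟩
      · exact absurd hk k.2
      · exact ⟨c, rfl⟩
      · exact absurd hk (h0 k).ne
    have h2 := Fintype.card_le_of_surjective _ h1
    rw [Fintype.card_fin] at h2
    exact h2
  · intro I' hI' hc
    have h1 : Function.Bijective
        (fun k : {k : P.κ // P.ty k = I'} =>
          (⟨Sum.inl ⟨k.1, fun h => hI' (k.2.symm.trans h)⟩, k.2⟩ :
          {k : (ga_fam P I hIne n q P0).κ // (ga_fam P I hIne n q P0).ty k = I'})) := by
      refine ⟨?_, ?_⟩
      · intro k k' h
        have h2 := congrArg Subtype.val h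
        have h3 := Sum.inl_injective h2
        exact Subtype.ext (congrArg (fun x => x.1) h3)
      · rintro ⟨k | c | k, hk⟩
        · exact ⟨⟨k.1, hk⟩, rfl⟩
        · exact absurd hk.symm hI'
        · have h2 := Finset.card_lt_card (h0 k)
          have h3 : P0.ty k = I' := hk
          rw [h3] at h2
          omega
    exact (Fintype.card_of_bijective h1).symm

theorem vec_mlin (P : Fam ι F Y) (I : Finset ι) : MLin F I (P.vec I) := ga_vec_mlin P I

theorem reg_of_cnt_zero (P : Fam ι F Y) (I : Finset ι) (h : P.cnt I = 0) (τ : ℝ) (hτ : 0 ≤ τ)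
    (M : ℕ) : Reg F I (P.vec I) (P.cnt I) τ M := by
  unfold Reg
  refine (prob_le_one _).trans ?_
  apply Real.one_le_rpow (one_lt_qq F).le
  rw [h]
  have : 0 ≤ τ * (M : ℝ) ^ I.card := by positivity
  push_cast
  linarith

end PRAR
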